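import Pool.Agent.H85.TU.Targets

/-!
# The dichotomy with marked points (row MRK of tum_modules)
-/

set_option autoImplicit false

open Set

namespace Pool.Agent.H85.TU

section

variable {ι : Type} {ar : ι → ℕ} {D : ι → Type}

theorem mrk_meas [∀ i, MeasurableSpace (D i)] (m : ℕ) :
    Measurable fun z : Str ar D ℕ × (Fin m → ℕ) => addM z.1 z.2 := by
  refine measurable_pi_iff.2 fun o => measurable_pi_iff.2 fun v => ?_
  cases o with
  | none =>
    refine measurable_pi_iff.2 fun j => ?_
    have h1 : Measurable fun n : ℕ => decide (v (0 : Fin 1) = n) := Measurable.of_discrete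
    exact h1.comp ((measurable_pi_apply j).comp measurable_snd)
  | some i => exact (measurable_pi_apply v).comp ((measurable_pi_apply i).comp measurable_fst)

theorem mrk_ana [∀ i, MeasurableSpace (D i)] (m : ℕ) {Y : Set (Str ar D ℕ × (Fin m → ℕ))}
    (hY : IsAnalytic Y) : IsAnalytic ((fun z : Str ar D ℕ × (Fin m → ℕ) => addM z.1 z.2) '' Y) := by
  rcases hY with h | ⟨f, hf, hr⟩
  · left
    rw [h, Set.image_empty]
  · right
    refine ⟨fun a => addM (f a).1 (f a).2, (mrk_meas m).comp hf, ?_⟩
    rw [← hr, ← Set.range_comp]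
    rfl

theorem mrk_a (m : ℕ) {Y : Set (Str ar D ℕ × (Fin m → ℕ))} {x : Str ar D ℕ} {c : Fin m → ℕ}
    (h : ∀ a b : ℕ, ∃ (p : ℕ → ℕ) (q : Fin m → ℕ), Function.Injective p ∧
      p ∘ q = c ∧ a ∈ range p ∧ b ∈ range p ∧ (pull x p, q) ∈ Y) :
    addM x c ∈ Cov2 ((fun z : Str ar D ℕ × (Fin m → ℕ) => addM z.1 z.2) '' Y) := by
  intro a b
  obtain ⟨p, q, hp, hc, ha, hb, hY⟩ := h a b
  refine ⟨p, hp, ha, hb, ⟨(pull x p, q), hY, ?_⟩⟩
  funext o v
  cases o with
  | none =>
    funext j
    have h1 : c j = p (q j) := by rw [← hc]; rfl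
    change decide (v (0 : Fin 1) = q j) = decide (p (v (0 : Fin 1)) = c j)
    rw [h1, decide_eq_decide]
    exact hp.eq_iff.symm
  | some i => rfl

theorem mrk_b (m : ℕ) {Y : Set (Str ar D ℕ × (Fin m → ℕ))} {y : Str (mar ar) (mD D m) ℕ}
    (h : y ∈ Cov2 ((fun z : Str ar D ℕ × (Fin m → ℕ) => addM z.1 z.2) '' Y)) :
    ∃ c : Fin m → ℕ, y = addM (redM y) c ∧ redM y ∈ Covered m Y := by
  have key : ∀ a b : ℕ, ∃ (p : ℕ → ℕ) (y0 : Str ar D ℕ) (q : Fin m → ℕ), Function.Injective p ∧
      a ∈ range p ∧ b ∈ range p ∧ (y0, q) ∈ Y ∧ addM y0 q = pull y p := by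
    intro a b
    obtain ⟨p, hp, ha, hb, ⟨y0, q⟩, hY, he⟩ := h a b
    exact ⟨p, y0, q, hp, ha, hb, hY, he⟩
  have val : ∀ (p : ℕ → ℕ) (y0 : Str ar D ℕ) (q : Fin m → ℕ), addM y0 q = pull y p →
      ∀ (a : ℕ) (j : Fin m), y none (fun _ : Fin 1 => p a) j = decide (a = q j) := by
    intro p y0 q he a j
    have h1 : addM y0 q none (fun _ : Fin 1 => a) j = pull y p none (fun _ : Fin 1 => a) j := by
      rw [he]
    exact h1.symm
  have ex : ∀ j : Fin m, ∃ a : ℕ, y none (fun _ : Fin 1 => a) j = true := by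
    intro j
    obtain ⟨p, y0, q, hp, -, -, hY, he⟩ := key 0 0
    refine ⟨p (q j), ?_⟩
    rw [val p y0 q he (q j) j]
    simp
  have uniq : ∀ (j : Fin m) (a b : ℕ), y none (fun _ : Fin 1 => a) j = true →
      y none (fun _ : Fin 1 => b) j = true → a = b := by
    intro j a b h1 h2
    obtain ⟨p, y0, q, hp, ⟨a', ha⟩, ⟨b', hb⟩, hY, he⟩ := key a b
    rw [← ha, val p y0 q he a' j, decide_eq_true_eq] at h1
    rw [← hb, val p y0 q he b' j, decide_eq_true_eq] at h2
    rw [← ha, ← hb, h1, h2]
  choose c hc using ex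
  refine ⟨c, ?_, c, ?_⟩
  · funext o v
    cases o with
    | none =>
      funext j
      have hv : v = fun _ : Fin 1 => v (0 : Fin 1) := by
        funext k
        exact congrArg v (Subsingleton.elim (α := Fin 1) k 0)
      change y none v j = decide (v (0 : Fin 1) = c j)
      rw [Bool.eq_iff_iff, decide_eq_true_eq]
      constructor
      · intro h1
        rw [hv] at h1
        exact uniq j _ _ h1 (hc j)
      · intro h1
        rw [hv, h1]
        exact hc j
    | some i => rfl
  · intro a b
    obtain ⟨p, y0, q, hp, ha, hb, hY, he⟩ := key a b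
    refine ⟨p, q, hp, ?_, ha, hb, ?_⟩
    · funext j
      refine uniq j _ _ ?_ (hc j)
      have h1 := val p y0 q he (q j) j
      change y none (fun _ : Fin 1 => p (q j)) j = true
      rw [h1]
      simp
    · have h1 : pull (redM y) p = y0 := by
        have h2 : redM (addM y0 q) = redM (pull y p) := by rw [he]
        exact h2.symm
      rw [h1]
      exact hY

/-- **MRK** -/
theorem pf_MRK (hDIC : T_DIC) (hPRF : T_PRF) : T_MRK := by
  intro ι _ ar D _ _ m Y hY
  rcases hDIC (Option ι) (mar ar) (mD D m) _ (mrk_ana m hY) with ⟨S, hS, hx⟩ | ⟨F, hF, hm, hn⟩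
  · left
    refine ⟨redM '' S, hS.image _, ?_⟩
    rintro x ⟨c, hc⟩
    obtain ⟨y, hyS, g, hg⟩ := hx (addM x c) (mrk_a m hc)
    exact ⟨redM y, ⟨y, hyS, rfl⟩, g, fun i v => hg (some i) v⟩
  · right
    have hb : ∀ u, ∃ c : Fin m → ℕ, F u = addM (redM (F u)) c ∧ redM (F u) ∈ Covered m Y :=
      fun u => mrk_b m (hm u)
    choose c hc hcov using hb
    refine hPRF ι ar D (Covered m Y) (fun u => redM (F u)) ?_ hcov ?_
    · refine measurable_pi_iff.2 fun i => measurable_pi_iff.2 fun v => ?_
      have h1 : Measurable fun u => F u (some i) v :=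
        measurable_pi_iff.1 (measurable_pi_iff.1 hF (some i)) v
      exact h1
    · intro w
      have hg : ∀ u : ℕ → Bool, ∃ g : ℕ ≃ ℕ, Iso (redM (F u)) (redM (F w)) →
          ∀ i v, redM (F w) i (g ∘ v) = redM (F u) i v := by
        intro u
        by_cases h : Iso (redM (F u)) (redM (F w))
        · obtain ⟨g, hg⟩ := h
          exact ⟨g, fun _ => hg⟩
        · exact ⟨Equiv.refl ℕ, fun h' => absurd h' h⟩
      choose g hg using hg
      refine Set.MapsTo.countable_of_injOn (f := fun u => (fun j => g u (c u j) : Fin m → ℕ))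
        (t := Set.univ) (fun _ _ => Set.mem_univ _) ?_ Set.countable_univ
      intro u hu v hv huv
      by_contra hne
      refine hn u v hne ⟨(g u).trans (g v).symm, ?_⟩
      have hgc : ∀ j, ((g u).trans (g v).symm) (c u j) = c v j := by
        intro j
        have h1 : g u (c u j) = g v (c v j) := congrFun huv j
        rw [Equiv.trans_apply, h1, Equiv.symm_apply_apply]
      intro o t
      cases o with
      | none =>
        funext j
        have e1 : F v none (((g u).trans (g v).symm) ∘ t) j =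
            decide (((g u).trans (g v).symm) (t (0 : Fin 1)) = c v j) :=
          congrFun (congrFun (congrFun (hc v) none) _) j
        have e2 : F u none t j = decide (t (0 : Fin 1) = c u j) :=
          congrFun (congrFun (congrFun (hc u) none) _) j
        rw [e1, e2, ← hgc j, decide_eq_decide]
        exact (Equiv.injective _).eq_iff
      | some i =>
        have e1 : redM (F w) i (g v ∘ (((g u).trans (g v).symm) ∘ t)) =
            redM (F v) i (((g u).trans (g v).symm) ∘ t) := hg v hv i _
        have e2 : redM (F w) i (g u ∘ t) = redM (F u) i t := hg u hu i t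
        have e3 : (g v ∘ (((g u).trans (g v).symm) ∘ t) : Fin (ar i) → ℕ) = g u ∘ t := by
          funext k
          exact Equiv.apply_symm_apply (g v) _
        exact e1.symm.trans ((congrArg (redM (F w) i) e3).trans e2)

end

end Pool.Agent.H85.TU
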